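import Mathlib

set_option autoImplicit false

/-!
The group induced on the seven conics of a Mathon `8`-arc is never the full group `GL_3(2)`.
-/

namespace Pool.Agent.Results.MP_df3b73_co.InducedGroupProper

open scoped LinearAlgebra.Projectivization

section defs

variable (K : Type) [Field K]

/-- The parameters `(α, β, λ)` of the conic `F_{α,β,λ}`. -/
@[ext] structure Conic where
  /-- the parameter `α` -/
  α : K
  /-- the parameter `β` -/
  β : K
  /-- the parameter `λ` -/
  lam : K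

variable {K}

/-- The quadratic form `α x² + xy + β y² + λ z²`. -/
def Conic.form (F : Conic K) (v : Fin 3 → K) : K :=
  F.α * v 0 ^ 2 + v 0 * v 1 + F.β * v 1 ^ 2 + F.lam * v 2 ^ 2

/-- The points of the conic in `PG(2, K)`. -/
def Conic.points (F : Conic K) : Set (ℙ K (Fin 3 → K)) := {p | F.form p.rep = 0}

/-- The composition `F ⊕ F'`. -/
def Conic.oplus (F F' : Conic K) : Conic K :=
  ⟨(F.α * F.lam + F'.α * F'.lam) / (F.lam + F'.lam),
   (F.β * F.lam + F'.β * F'.lam) / (F.lam + F'.lam), F.lam + F'.lam⟩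

/-- `𝒞` is a closed set of seven conics `F_{α,β,λ}` with `Tr(αβ) = 1` and `λ ≠ 0`. -/
structure IsMathonFamily [Algebra (ZMod 2) K] (𝒞 : Finset (Conic K)) : Prop where
  trace : ∀ F ∈ 𝒞, Algebra.trace (ZMod 2) K (F.α * F.β) = 1
  lam_ne : ∀ F ∈ 𝒞, F.lam ≠ 0
  closed : ∀ F ∈ 𝒞, ∀ F' ∈ 𝒞, F ≠ F' → F.lam ≠ F'.lam ∧ F.oplus F' ∈ 𝒞
  card : 𝒞.card = 7

variable (K)

/-- A semilinear bijection of `K³`; these induce the elements of `PΓL(3, K)`. -/
structure Collineation where
  /-- the bijection -/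
  e : (Fin 3 → K) ≃ (Fin 3 → K)
  /-- the companion automorphism -/
  σ : K ≃+* K
  map_add : ∀ u v, e (u + v) = e u + e v
  map_smul : ∀ (c : K) v, e (c • v) = σ c • e v

variable {K}

theorem Collineation.map_zero (g : Collineation K) : g.e 0 = 0 := by
  have := g.map_add 0 0
  rw [add_zero] at this
  exact left_eq_add.1 this

theorem Collineation.map_ne_zero (g : Collineation K) {v : Fin 3 → K} (hv : v ≠ 0) :
    g.e v ≠ 0 := by
  intro h
  rw [← g.map_zero] at h
  exact hv (g.e.injective h)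

/-- The action on the points of `PG(2, K)`. -/
noncomputable def Collineation.act (g : Collineation K) (p : ℙ K (Fin 3 → K)) :
    ℙ K (Fin 3 → K) :=
  Projectivization.mk K (g.e p.rep) (g.map_ne_zero p.rep_nonzero)

/-- The collineation `g` maps, for every `F` in `𝒞`, the conic `p(F)` onto the conic `p(π F)`;
that is, `g` induces the permutation `π` of the seven conics of the arc
`p(⋃ 𝒞 ∪ {F_0})`. -/
def Induces (𝒞 : Finset (Conic K)) (p g : Collineation K) (π : Equiv.Perm 𝒞) : Prop :=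
  ∀ F : 𝒞, g.act '' (p.act '' (F.1.points)) = p.act '' ((π F).1.points)

/-- `π` is an automorphism of the Fano plane with point set `𝒞` and lines `{F, F', F ⊕ F'}`. -/
def IsFanoAut (𝒞 : Finset (Conic K)) (π : Equiv.Perm 𝒞) : Prop :=
  ∀ F F' F'' : 𝒞, F ≠ F' → F''.1 = F.1.oplus F'.1 → (π F'').1 = (π F).1.oplus (π F').1

end defs

section aux

variable {K : Type} [Field K]

theorem form_smul (F : Conic K) (c : K) (v : Fin 3 → K) :
    F.form (c • v) = c ^ 2 * F.form v := by
  simp only [Conic.form, Pi.smul_apply, smul_eq_mul]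
  ring

theorem mk_mem_points (F : Conic K) (v : Fin 3 → K) (hv : v ≠ 0) :
    Projectivization.mk K v hv ∈ F.points ↔ F.form v = 0 := by
  obtain ⟨a, ha⟩ := Projectivization.exists_smul_eq_mk_rep K v hv
  show F.form (Projectivization.mk K v hv).rep = 0 ↔ _
  rw [← ha]
  have h1 : (a • v) = (a : K) • v := rfl
  rw [h1, form_smul]
  simp

theorem act_mk (g : Collineation K) (v : Fin 3 → K) (hv : v ≠ 0) :
    g.act (Projectivization.mk K v hv) = Projectivization.mk K (g.e v) (g.map_ne_zero hv) := by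
  rw [Collineation.act, Projectivization.mk_eq_mk_iff]
  obtain ⟨a, ha⟩ := Projectivization.exists_smul_eq_mk_rep K v hv
  refine ⟨Units.map g.σ.toRingHom.toMonoidHom a, ?_⟩
  rw [← ha]
  exact (g.map_smul (a : K) v).symm

/-- The composition `p⁻¹ ∘ g ∘ p`. -/
def conj (p g : Collineation K) : Collineation K where
  e := (p.e.trans g.e).trans p.e.symm
  σ := (p.σ.trans g.σ).trans p.σ.symm
  map_add := by
    intro u v
    apply p.e.injective
    simp only [Equiv.trans_apply, p.map_add, g.map_add, Equiv.apply_symm_apply]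
  map_smul := by
    intro c v
    apply p.e.injective
    simp only [Equiv.trans_apply, p.map_smul, g.map_smul, Equiv.apply_symm_apply,
      RingEquiv.trans_apply, RingEquiv.apply_symm_apply]

theorem form_iff {𝒞 : Finset (Conic K)} {p g : Collineation K} {π : Equiv.Perm 𝒞}
    (h : Induces 𝒞 p g π) (F : 𝒞) (v : Fin 3 → K) (hv : F.1.form v = 0) :
    (π F).1.form ((conj p g).e v) = 0 := by
  by_cases hv0 : v = 0
  · rw [hv0, Collineation.map_zero]
    simp [Conic.form]
  · have h1 : Projectivization.mk K v hv0 ∈ F.1.points := (mk_mem_points _ _ _).2 hv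
    have h2 : g.act (p.act (Projectivization.mk K v hv0)) ∈ p.act '' ((π F).1.points) := by
      rw [← h F]
      exact ⟨_, ⟨_, h1, rfl⟩, rfl⟩
    obtain ⟨x, hx, hxe⟩ := h2
    rw [act_mk, act_mk] at hxe
    have hw : (conj p g).e v ≠ 0 := (conj p g).map_ne_zero hv0
    have h3 : p.act (Projectivization.mk K ((conj p g).e v) hw) =
        Projectivization.mk K (g.e (p.e v)) (g.map_ne_zero (p.map_ne_zero hv0)) := by
      rw [act_mk]
      congr 1
      exact p.e.apply_symm_apply _
    rw [← h3] at hxe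
    have hinj : Function.Injective p.act := by
      intro a b hab
      induction a using Projectivization.ind with | _ a ha =>
      induction b using Projectivization.ind with | _ b hb =>
      rw [act_mk, act_mk, Projectivization.mk_eq_mk_iff] at hab
      obtain ⟨c, hc⟩ := hab
      rw [Projectivization.mk_eq_mk_iff]
      refine ⟨Units.map p.σ.symm.toRingHom.toMonoidHom c, ?_⟩
      apply p.e.injective
      rw [← hc]
      refine (p.map_smul _ _).trans ?_
      show p.σ (p.σ.symm c) • _ = _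
      rw [RingEquiv.apply_symm_apply]
      rfl
    rw [hinj hxe] at hx
    exact (mk_mem_points _ _ _).1 hx

variable [Fintype K] [CharP K 2]

theorem exists_sqrt (a : K) : ∃ b : K, b ^ 2 = a := by
  have h := FiniteField.isSquare_of_char_two (F := K) (ringChar.eq_iff.2 inferInstance) a
  obtain ⟨b, hb⟩ := h
  exact ⟨b, by rw [hb]; ring⟩

theorem quartic_zero (hK : 4 < Fintype.card K) (a4 a3 a2 a1 a0 : K)
    (h : ∀ X : K, a4 * X ^ 4 + a3 * X ^ 3 + a2 * X ^ 2 + a1 * X + a0 = 0) :
    a4 = 0 ∧ a3 = 0 ∧ a2 = 0 ∧ a1 = 0 ∧ a0 = 0 := by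
  classical
  let P : Polynomial K := Polynomial.C a4 * Polynomial.X ^ 4 + Polynomial.C a3 * Polynomial.X ^ 3 +
    Polynomial.C a2 * Polynomial.X ^ 2 + Polynomial.C a1 * Polynomial.X + Polynomial.C a0
  have hdeg : P.natDegree ≤ 4 := by
    simp only [P]
    compute_degree
  have hP : P = 0 := by
    apply Polynomial.eq_zero_of_natDegree_lt_card_of_eval_eq_zero' P Finset.univ
    · intro X _
      simpa [P] using h X
    · rw [Finset.card_univ]
      omega
  have h4 := congrArg (fun p => Polynomial.coeff p 4) hP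
  have h3 := congrArg (fun p => Polynomial.coeff p 3) hP
  have h2 := congrArg (fun p => Polynomial.coeff p 2) hP
  have h1 := congrArg (fun p => Polynomial.coeff p 1) hP
  have h0 := congrArg (fun p => Polynomial.coeff p 0) hP
  simp [P, Polynomial.coeff_X, Polynomial.coeff_C, Polynomial.coeff_X_pow] at h4 h3 h2 h1 h0
  exact ⟨h4, h3, h2, h1, h0⟩

theorem add_self (a : K) : a + a = 0 := CharTwo.add_self_eq_zero a

/-- The polar form. -/
def polar (u v : Fin 3 → K) : K := u 0 * v 1 + u 1 * v 0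

theorem form_add (F : Conic K) (u v : Fin 3 → K) :
    F.form (u + v) = F.form u + F.form v + polar u v := by
  have h2 : (2 : K) = 0 := CharTwo.two_eq_zero
  simp only [Conic.form, polar, Pi.add_apply]
  linear_combination (F.α * u 0 * v 0 + F.β * u 1 * v 1 + F.lam * u 2 * v 2) * h2

theorem polar_smul (a b : K) (u v : Fin 3 → K) : polar (a • u) (b • v) = a * b * polar u v := by
  simp only [polar, Pi.smul_apply, smul_eq_mul]
  ring

theorem polar_add_left (u u' v : Fin 3 → K) : polar (u + u') v = polar u v + polar u' v := by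
  simp only [polar, Pi.add_apply]
  ring

theorem apply_eq (g : Collineation K) (x y z : K) :
    g.e ![x, y, z] = g.σ x • g.e ![1, 0, 0] + g.σ y • g.e ![0, 1, 0] + g.σ z • g.e ![0, 0, 1] := by
  rw [← g.map_smul, ← g.map_smul, ← g.map_smul, ← g.map_add, ← g.map_add]
  congr 1
  funext i
  fin_cases i <;> simp

theorem form_vec (F : Conic K) (x y z : K) :
    F.form ![x, y, z] = F.α * x ^ 2 + x * y + F.β * y ^ 2 + F.lam * z ^ 2 := rfl

/-- If `g` maps the conic `F` into the conic `F'`, then `λ' = k σ(λ)` with `k` depending only on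
`g`. -/
theorem main_lemma (hK : 4 < Fintype.card K) (g : Collineation K) :
    ∃ k : K, k ≠ 0 ∧ ∀ F F' : Conic K, F.lam ≠ 0 → F'.lam ≠ 0 →
      (∀ v, F.form v = 0 → F'.form (g.e v) = 0) → F'.lam = k * g.σ F.lam := by
  by_cases hex : ∃ F F' : Conic K, F.lam ≠ 0 ∧ F'.lam ≠ 0 ∧
      (∀ v, F.form v = 0 → F'.form (g.e v) = 0)
  swap
  · push Not at hex
    exact ⟨1, one_ne_zero, fun F F' h1 h2 h3 => absurd h3 (by
      obtain ⟨v, hv1, hv2⟩ := hex F F' h1 h2
      intro h
      exact hv2 (h v hv1))⟩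
  set m0 := g.e ![1, 0, 0] with hm0
  set m1 := g.e ![0, 1, 0] with hm1
  set m2 := g.e ![0, 0, 1] with hm2
  have key : ∀ F F' : Conic K, F.lam ≠ 0 → F'.lam ≠ 0 →
      (∀ v, F.form v = 0 → F'.form (g.e v) = 0) →
      polar m0 m1 ≠ 0 ∧ m2 2 ≠ 0 ∧ F'.lam * m2 2 ^ 2 = polar m0 m1 * g.σ F.lam := by
    intro F F' hl hl' h
    have hσl : g.σ F.lam ≠ 0 := by
      intro h0
      exact hl (g.σ.map_eq_zero_iff.1 h0)
    obtain ⟨s, hs⟩ := exists_sqrt (g.σ F.α / g.σ F.lam)
    obtain ⟨t, ht⟩ := exists_sqrt (g.σ F.β / g.σ F.lam)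
    obtain ⟨u, hu⟩ := exists_sqrt (1 / g.σ F.lam)
    have hs' : g.σ F.lam * s ^ 2 = g.σ F.α := by rw [hs]; field_simp
    have ht' : g.σ F.lam * t ^ 2 = g.σ F.β := by rw [ht]; field_simp
    have hu' : g.σ F.lam * u ^ 2 = 1 := by rw [hu]; field_simp
    have hu0 : u ≠ 0 := by
      rintro rfl
      simp at hu'
    have h2 : (2 : K) = 0 := CharTwo.two_eq_zero
    have hpoly : ∀ X : K,
        (F'.form m0 + F'.form m2 * s ^ 2 + polar m0 m2 * s) * X ^ 4 +
        (polar m0 m2 * u) * X ^ 3 +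
        (F'.form m2 * u ^ 2 + polar m0 m1 + polar m0 m2 * t + polar m1 m2 * s) * X ^ 2 +
        (polar m1 m2 * u) * X +
        (F'.form m1 + F'.form m2 * t ^ 2 + polar m1 m2 * t) = 0 := by
      intro X
      set z := s * X ^ 2 + t + u * X with hz
      have h0 : F.form ![g.σ.symm (X ^ 2), g.σ.symm 1, g.σ.symm z] = 0 := by
        apply g.σ.injective
        rw [_root_.map_zero]
        rw [form_vec]
        simp only [_root_.map_add, _root_.map_mul, _root_.map_pow, RingEquiv.apply_symm_apply]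
        rw [hz]
        linear_combination (-(X ^ 4)) * hs' - ht' - X ^ 2 * hu' +
          (g.σ F.α * X ^ 4 + X ^ 2 + g.σ F.β + g.σ F.lam * (s * X ^ 2 * t + s * X ^ 2 * u * X +
            t * u * X) + (g.σ F.lam * s ^ 2 - g.σ F.α) * X ^ 4 + (g.σ F.lam * t ^ 2 - g.σ F.β) +
              (g.σ F.lam * u ^ 2 - 1) * X ^ 2) * h2
      have h1 := h _ h0
      rw [apply_eq, form_add, form_add, polar_add_left, polar_smul, polar_smul, polar_smul,
        form_smul, form_smul, form_smul] at h1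
      simp only [RingEquiv.apply_symm_apply] at h1
      rw [← hm0, ← hm1, ← hm2] at h1
      rw [hz] at h1
      linear_combination h1 - (F'.form m2 * (s * X ^ 2 * t + s * X ^ 2 * u * X + t * u * X)) * h2
    obtain ⟨e4, e3, e2, e1, e0⟩ := quartic_zero hK _ _ _ _ _ hpoly
    have hB02 : polar m0 m2 = 0 := (mul_eq_zero.1 e3).resolve_right hu0
    have hB12 : polar m1 m2 = 0 := (mul_eq_zero.1 e1).resolve_right hu0
    rw [hB02, zero_mul, add_zero] at e4
    rw [hB12, zero_mul, add_zero] at e0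
    rw [hB02, hB12, zero_mul, zero_mul, add_zero, add_zero] at e2
    have hQ : F'.form m2 = polar m0 m1 * g.σ F.lam := by
      linear_combination (g.σ F.lam) * e2 - F'.form m2 * hu' - (polar m0 m1 * g.σ F.lam) * h2
    have hc : polar m0 m1 ≠ 0 := by
      intro hc
      rw [hc, zero_mul] at hQ
      rw [hQ, zero_mul, add_zero] at e4 e0
      have hall : ∀ v, F'.form (g.e v) = 0 := by
        intro v
        have hv : v = ![v 0, v 1, v 2] := by
          funext i
          fin_cases i <;> rfl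
        rw [hv, apply_eq, form_add, form_add, polar_add_left, polar_smul, polar_smul, polar_smul,
          form_smul, form_smul, form_smul, ← hm0, ← hm1, ← hm2, e4, e0, hQ, hc, hB02, hB12]
        ring
      obtain ⟨v, hv⟩ := g.e.surjective ![0, 0, 1]
      have h3 := hall v
      rw [hv] at h3
      simp [Conic.form] at h3
      exact hl' h3
    have hm20 : m2 0 = 0 := by
      have h3 : polar m0 m1 * m2 0 = 0 := by
        have e5 : polar m0 m1 * m2 0 = m0 0 * polar m1 m2 + m1 0 * polar m0 m2 := by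
          simp only [polar]
          linear_combination (-(m0 0 * m1 0 * m2 1)) * h2
        rw [e5, hB02, hB12]
        ring
      exact (mul_eq_zero.1 h3).resolve_left hc
    have hm21 : m2 1 = 0 := by
      have h3 : polar m0 m1 * m2 1 = 0 := by
        have e5 : polar m0 m1 * m2 1 = m1 1 * polar m0 m2 + m0 1 * polar m1 m2 := by
          simp only [polar]
          linear_combination (-(m0 1 * m1 1 * m2 0)) * h2
        rw [e5, hB02, hB12]
        ring
      exact (mul_eq_zero.1 h3).resolve_left hc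
    have hfin : F'.lam * m2 2 ^ 2 = polar m0 m1 * g.σ F.lam := by
      rw [← hQ, Conic.form, hm20, hm21]
      ring
    refine ⟨hc, ?_, hfin⟩
    intro h0
    rw [h0] at hfin
    have h5 : polar m0 m1 * g.σ F.lam = 0 := by rw [← hfin]; ring
    rcases mul_eq_zero.1 h5 with h6 | h6
    · exact hc h6
    · exact hσl h6
  obtain ⟨F, F', h1, h2, h3⟩ := hex
  obtain ⟨hc, hm, -⟩ := key F F' h1 h2 h3
  refine ⟨polar m0 m1 / m2 2 ^ 2, div_ne_zero hc (pow_ne_zero 2 hm), ?_⟩
  intro F F' h1 h2 h3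
  obtain ⟨-, -, h4⟩ := key F F' h1 h2 h3
  field_simp
  exact h4

end aux

section final

variable {K : Type} [Field K] [Fintype K] [Algebra (ZMod 2) K]

theorem ringEquiv_comm (σ τ : K ≃+* K) (x : K) : σ (τ x) = τ (σ x) := by
  have hz : ∀ (ρ : K ≃+* K) (r : ZMod 2), ρ (algebraMap (ZMod 2) K r) = algebraMap (ZMod 2) K r := by
    intro ρ r
    have : r = 0 ∨ r = 1 := by revert r; decide
    rcases this with rfl | rfl <;> simp
  let s : K ≃ₐ[ZMod 2] K := AlgEquiv.ofRingEquiv (f := σ) (hz σ)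
  let t : K ≃ₐ[ZMod 2] K := AlgEquiv.ofRingEquiv (f := τ) (hz τ)
  have h : s * t = t * s := by
    have : IsCyclic (K ≃ₐ[ZMod 2] K) := inferInstance
    obtain ⟨g, hg⟩ := this.exists_generator
    obtain ⟨m, hm⟩ := hg s
    obtain ⟨n, hn⟩ := hg t
    rw [← hm, ← hn]
    show g ^ m * g ^ n = g ^ n * g ^ m
    rw [← zpow_add, ← zpow_add, add_comm]
  exact DFunLike.congr_fun h x

variable {𝒞 : Finset (Conic K)} (h𝒞 : IsMathonFamily 𝒞)

include h𝒞

theorem lam_inj {F F' : Conic K} (hF : F ∈ 𝒞) (hF' : F' ∈ 𝒞) (h : F.lam = F'.lam) : F = F' := by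
  by_contra hne
  exact (h𝒞.closed F hF F' hF' hne).1 h

/-- The additive group consisting of `0` and the seven values of `λ`. -/
def lamGroup : Submodule (ZMod 2) K where
  carrier := {a | a = 0 ∨ ∃ F ∈ 𝒞, F.lam = a}
  add_mem' := by
    rintro a b (rfl | ⟨F, hF, rfl⟩) (rfl | ⟨F', hF', rfl⟩)
    · left; rw [add_zero]
    · right; exact ⟨F', hF', by rw [zero_add]⟩
    · right; exact ⟨F, hF, by rw [add_zero]⟩
    · by_cases hne : F = F'
      · left
        subst hne
        have : CharP K 2 := charP_of_injective_algebraMap (algebraMap (ZMod 2) K).injective 2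
        exact CharTwo.add_self_eq_zero _
      · right
        exact ⟨F.oplus F', (h𝒞.closed F hF F' hF' hne).2, rfl⟩
  zero_mem' := Or.inl rfl
  smul_mem' := by
    intro c a ha
    have : c = 0 ∨ c = 1 := by revert c; decide
    rcases this with rfl | rfl
    · left; rw [zero_smul]
    · rw [one_smul]; exact ha

theorem mem_lamGroup (a : K) : a ∈ lamGroup h𝒞 ↔ a = 0 ∨ ∃ F ∈ 𝒞, F.lam = a := Iff.rfl

/-- The conics correspond to the nonzero elements of the group. -/
noncomputable def conicEquiv : 𝒞 ≃ {a : lamGroup h𝒞 // a ≠ 0} :=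
  Equiv.ofBijective (fun F => ⟨⟨F.1.lam, Or.inr ⟨F.1, F.2, rfl⟩⟩, by
    intro h
    exact h𝒞.lam_ne F.1 F.2 (congrArg Subtype.val h)⟩) (by
    constructor
    · intro F F' h
      have h1 := congrArg (fun a => ((a.1 : lamGroup h𝒞) : K)) h
      exact Subtype.ext (lam_inj h𝒞 F.2 F'.2 h1)
    · rintro ⟨⟨a, ha⟩, ha0⟩
      rcases ha with rfl | ⟨F, hF, rfl⟩
      · exact absurd rfl ha0
      · exact ⟨⟨F, hF⟩, rfl⟩)

theorem conicEquiv_apply (F : 𝒞) : ((conicEquiv h𝒞 F).1 : K) = F.1.lam := rfl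

theorem card_lamGroup : Nat.card (lamGroup h𝒞) = 8 := by
  classical
  have h1 : Nat.card {a : lamGroup h𝒞 // a ≠ 0} = 7 := by
    rw [← Nat.card_congr (conicEquiv h𝒞), Nat.card_eq_fintype_card, Fintype.card_coe, h𝒞.card]
  have : Fintype (lamGroup h𝒞) := Fintype.ofFinite _
  rw [Nat.card_eq_fintype_card] at h1 ⊢
  rw [Fintype.card_subtype_compl, Fintype.card_subtype_eq] at h1
  omega

/-- The permutation of the conics corresponding to a linear automorphism. -/
noncomputable def permOf (φ : lamGroup h𝒞 ≃ₗ[ZMod 2] lamGroup h𝒞) : Equiv.Perm 𝒞 :=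
  ((conicEquiv h𝒞).trans (φ.toEquiv.subtypeEquiv (fun a => by
    show a ≠ 0 ↔ φ a ≠ 0
    rw [Ne, Ne, LinearEquiv.map_eq_zero_iff]))).trans (conicEquiv h𝒞).symm

theorem permOf_lam (φ : lamGroup h𝒞 ≃ₗ[ZMod 2] lamGroup h𝒞) (F : 𝒞) :
    (permOf h𝒞 φ F).1.lam = (φ (conicEquiv h𝒞 F).1 : K) := by
  rw [← conicEquiv_apply h𝒞, permOf]
  simp only [Equiv.trans_apply, Equiv.apply_symm_apply]
  rfl

theorem isFanoAut_permOf (φ : lamGroup h𝒞 ≃ₗ[ZMod 2] lamGroup h𝒞) :
    IsFanoAut 𝒞 (permOf h𝒞 φ) := by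
  intro F F' F'' hne hF''
  have hne' : (permOf h𝒞 φ F).1 ≠ (permOf h𝒞 φ F').1 := by
    intro h
    exact hne ((permOf h𝒞 φ).injective (Subtype.ext h))
  apply lam_inj h𝒞 (permOf h𝒞 φ F'').2
    (h𝒞.closed _ (permOf h𝒞 φ F).2 _ (permOf h𝒞 φ F').2 hne').2
  show _ = (permOf h𝒞 φ F).1.lam + (permOf h𝒞 φ F').1.lam
  rw [permOf_lam, permOf_lam, permOf_lam]
  have h1 : (conicEquiv h𝒞 F'').1 = (conicEquiv h𝒞 F).1 + (conicEquiv h𝒞 F').1 := by
    apply Subtype.ext
    show F''.1.lam = F.1.lam + F'.1.lam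
    rw [hF'']
    rfl
  rw [h1, map_add]
  rfl

theorem card_big : 4 < Fintype.card K := by
  have h1 : Nat.card (lamGroup h𝒞) ≤ Nat.card K :=
    Nat.card_le_card_of_injective (fun a : lamGroup h𝒞 => (a : K)) Subtype.val_injective
  rw [card_lamGroup, Nat.card_eq_fintype_card] at h1
  omega

theorem induced_form (p g : Collineation K) (π : Equiv.Perm 𝒞) (h : Induces 𝒞 p g π) :
    ∃ (k : K) (σ : K ≃+* K), k ≠ 0 ∧ ∀ F : 𝒞, (π F).1.lam = k * σ F.1.lam := by
  have : CharP K 2 := charP_of_injective_algebraMap (algebraMap (ZMod 2) K).injective 2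
  obtain ⟨k, hk, hmain⟩ := main_lemma (card_big h𝒞) (conj p g)
  exact ⟨k, (conj p g).σ, hk, fun F => hmain F.1 (π F).1 (h𝒞.lam_ne _ F.2)
    (h𝒞.lam_ne _ (π F).2) (fun v hv => form_iff h F v hv)⟩

theorem linear_form (p g : Collineation K) (φ : lamGroup h𝒞 ≃ₗ[ZMod 2] lamGroup h𝒞)
    (h : Induces 𝒞 p g (permOf h𝒞 φ)) :
    ∃ (k : K) (σ : K ≃+* K), k ≠ 0 ∧ ∀ a : lamGroup h𝒞, (φ a : K) = k * σ (a : K) := by
  obtain ⟨k, σ, hk, hF⟩ := induced_form h𝒞 p g _ h
  refine ⟨k, σ, hk, fun a => ?_⟩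
  by_cases ha : a = 0
  · subst ha; simp
  · have h1 := hF ((conicEquiv h𝒞).symm ⟨a, ha⟩)
    rw [permOf_lam, Equiv.apply_symm_apply] at h1
    rw [h1, ← conicEquiv_apply h𝒞, Equiv.apply_symm_apply]

theorem not_full (p : Collineation K) :
    ∃ π : Equiv.Perm 𝒞, IsFanoAut 𝒞 π ∧ ∀ g : Collineation K, ¬ Induces 𝒞 p g π := by
  by_contra hcon
  push Not at hcon
  have hcard : Fintype.card (ZMod 2) = 2 := ZMod.card 2
  have : Fintype (lamGroup h𝒞) := Fintype.ofFinite _
  have hfr : Module.finrank (ZMod 2) (lamGroup h𝒞) = 3 := by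
    have h1 := Module.card_eq_pow_finrank (K := ZMod 2) (V := lamGroup h𝒞)
    rw [← Nat.card_eq_fintype_card, card_lamGroup, hcard] at h1
    have h2 : (2 : ℕ) ^ 3 = 2 ^ Module.finrank (ZMod 2) (lamGroup h𝒞) := by rw [← h1]; norm_num
    exact (Nat.pow_right_injective le_rfl h2).symm
  let b : Module.Basis (Fin 3) (ZMod 2) (lamGroup h𝒞) := Module.finBasisOfFinrankEq _ _ hfr
  -- transvections
  have htr : ∀ i j : Fin 3, i ≠ j → ∃ φ : lamGroup h𝒞 ≃ₗ[ZMod 2] lamGroup h𝒞,
      ∀ a, φ a = a + b.coord j a • b i := by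
    intro i j hij
    let f : lamGroup h𝒞 →ₗ[ZMod 2] lamGroup h𝒞 :=
      LinearMap.id + (b.coord j).smulRight (b i)
    have hf : ∀ a, f a = a + b.coord j a • b i := fun a => rfl
    have hinv : Function.Involutive f := by
      intro a
      rw [hf, hf, map_add, map_smul, Module.Basis.coord_apply, Module.Basis.coord_apply,
        Module.Basis.repr_self, Finsupp.single_eq_of_ne' hij, smul_zero, add_zero, add_assoc,
        ← add_smul]
      have h2 : (b.repr a) j + (b.repr a) j = 0 := by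
        generalize (b.repr a) j = c
        revert c
        decide
      rw [h2, zero_smul, add_zero]
    exact ⟨LinearEquiv.ofInvolutive f hinv, hf⟩
  obtain ⟨φ, hφ⟩ := htr 0 1 (by decide)
  obtain ⟨ψ, hψ⟩ := htr 1 2 (by decide)
  obtain ⟨g, hg⟩ := hcon _ (isFanoAut_permOf h𝒞 φ)
  obtain ⟨g', hg'⟩ := hcon _ (isFanoAut_permOf h𝒞 ψ)
  obtain ⟨k, σ, hk, h1⟩ := linear_form h𝒞 p g φ hg
  obtain ⟨l, τ, hl, h2⟩ := linear_form h𝒞 p g' ψ hg'
  have hφψ : ∀ a, (φ (ψ a) : K) = (k * σ l) * σ (τ a) := by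
    intro a
    rw [h1, h2, map_mul]
    ring
  have hψφ : ∀ a, (ψ (φ a) : K) = (l * τ k) * σ (τ a) := by
    intro a
    rw [h2, h1, map_mul, ringEquiv_comm σ τ]
    ring
  have hcoord : ∀ i j : Fin 3, b.coord j (b i) = if i = j then 1 else 0 := by
    intro i j
    rw [Module.Basis.coord_apply, Module.Basis.repr_self, Finsupp.single_apply]
  have e0 : φ (ψ (b 0)) = b 0 := by
    rw [hψ, hcoord, if_neg (by decide), zero_smul, add_zero, hφ, hcoord, if_neg (by decide),
      zero_smul, add_zero]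
  have e0' : ψ (φ (b 0)) = b 0 := by
    rw [hφ, hcoord, if_neg (by decide), zero_smul, add_zero, hψ, hcoord, if_neg (by decide),
      zero_smul, add_zero]
  have hb0 : ((b 0 : lamGroup h𝒞) : K) ≠ 0 := by
    intro h
    exact b.ne_zero 0 (Subtype.ext h)
  have hne : σ (τ ((b 0 : lamGroup h𝒞) : K)) ≠ 0 := by
    simpa using hb0
  have hkl : k * σ l = l * τ k := by
    have h3 := hφψ (b 0)
    have h4 := hψφ (b 0)
    rw [e0] at h3
    rw [e0'] at h4
    exact mul_right_cancel₀ hne (h3.symm.trans h4)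
  have e2 : φ (ψ (b 2)) = ψ (φ (b 2)) := by
    apply Subtype.ext
    rw [hφψ, hψφ, hkl]
  rw [hψ (b 2), hcoord, if_pos rfl, one_smul, map_add, hφ (b 2), hcoord, if_neg (by decide),
    zero_smul, add_zero, hφ (b 1), hcoord, if_pos rfl, one_smul, hψ (b 2), hcoord, if_pos rfl,
    one_smul, ← add_assoc] at e2
  exact b.ne_zero 0 (left_eq_add.1 e2.symm)

end final

/-- For every finite field `K` of characteristic `2`, every closed set `𝒞` of seven conics and
every collineation `p` (so that `p(⋃ 𝒞 ∪ {F_0})` is an arbitrary Mathon `8`-arc), the group induced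
on the seven conics is a proper subgroup of the automorphism group `GL_3(2)` of the Fano plane.
Moreover every induced permutation acts on the parameters `λ` by `λ ↦ k λ^σ`. -/
theorem result (K : Type) [Field K] [Fintype K] [Algebra (ZMod 2) K] (𝒞 : Finset (Conic K))
    (h𝒞 : IsMathonFamily 𝒞) (p : Collineation K) :
    (∃ π : Equiv.Perm 𝒞, IsFanoAut 𝒞 π ∧ ∀ g : Collineation K, ¬ Induces 𝒞 p g π) ∧
    (∀ (g : Collineation K) (π : Equiv.Perm 𝒞), Induces 𝒞 p g π →
      ∃ (k : K) (σ : K ≃+* K), k ≠ 0 ∧ ∀ F : 𝒞, (π F).1.lam = k * σ F.1.lam) :=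
  ⟨not_full h𝒞 p, fun g π h => induced_form h𝒞 p g π h⟩

end Pool.Agent.Results.MP_df3b73_co.InducedGroupProper
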